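import Pool.Agent.H15.FOS.Targets

/-!
# MP_70ba79_ag, THEOREM S, row PLO: normalised orders in affine coordinates
-/

set_option autoImplicit false
open MvPolynomial SC Pool.Agent.H27.LV
open Pool.Agent.H84.SM (dp cr dt)
open Pool.Agent.H92.SF Pool.Agent.H3.SF Pool.Agent.H15.FOS
namespace Pool.Agent.H39.FOS

theorem plo_scale {k K : Type} [Field k] [Field K] [Algebra k K] (c : K) (y : Fin 3 → K) (d : ℕ)
    (Φ : MvPolynomial (Fin 3) k) (h : Φ.IsHomogeneous d) :
    aeval (fun i => c * y i) Φ = c ^ d * aeval y Φ := by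
  rw [aeval_def, aeval_def, eval₂_eq', eval₂_eq', Finset.mul_sum]
  refine Finset.sum_congr rfl fun m hm => ?_
  have h1 : ∑ i, m i = d := by
    have h2 := h (mem_support_iff.mp hm)
    rw [← h2, Finsupp.weight_apply, Finsupp.sum_fintype _ _ (fun i => by simp)]
    simp
  simp only [mul_pow]
  rw [Finset.prod_mul_distrib, Finset.prod_pow_eq_pow_sum, h1]
  ring

theorem plo_one {k K : Type} [Field k] [Field K] [Algebra k K] (v : DV k K) : v.ord 1 = 0 := by
  have h := v.ord_base 1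
  rwa [map_one] at h

theorem plo_pow {k K : Type} [Field k] [Field K] [Algebra k K] (v : DV k K) {x : K} (hx : x ≠ 0)
    (n : ℕ) : v.ord (x ^ n) = n * v.ord x := by
  induction n with
  | zero => simp [plo_one]
  | succ n ih =>
    rw [pow_succ, v.ord_mul _ _ (pow_ne_zero _ hx) hx, ih]
    push_cast
    ring

theorem fos_PLO : T_PLO := by
  intro k K _ _ _ v x d Φ hj h0 hΦ hne
  obtain ⟨X, hX⟩ : ∃ X, X = x 1 / x 0 := ⟨_, rfl⟩
  obtain ⟨Y, hY⟩ : ∃ Y, Y = x 2 / x 0 := ⟨_, rfl⟩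
  rw [← hX, ← hY]
  have hx1 : x 1 = x 0 * X := by rw [hX]; field_simp
  have hx2 : x 2 = x 0 * Y := by rw [hY]; field_simp
  have hx : x = fun i => x 0 * (![1, X, Y] : Fin 3 → K) i := by
    funext i
    fin_cases i
    · simp
    · simpa using hx1
    · simpa using hx2
  have hsc : aeval x Φ = x 0 ^ d * aeval ![1, X, Y] Φ := by
    have h := plo_scale (k := k) (x 0) ![1, X, Y] d Φ hΦ
    rw [← hx] at h
    exact h
  have hne2 : aeval ![1, X, Y] Φ ≠ 0 := by
    intro h
    apply hne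
    rw [hsc, h, mul_zero]
  refine ⟨hne2, ?_⟩
  rw [hsc, v.ord_mul _ _ (pow_ne_zero _ h0) hne2, plo_pow v h0]
  -- the pole order
  have hpo : (poleOrder v x : ℤ) = - v.ord (x 0) - min 0 (min (v.ord X) (v.ord Y)) := by
    have h1 : poleOrder v x =
        max (-(v.ord (x 0))).toNat (max (-(v.ord (x 1))).toNat (-(v.ord (x 2))).toNat) := by
      unfold poleOrder
      have hu : (Finset.univ : Finset (Fin 3)) = {0, 1, 2} := by decide
      rw [hu, Finset.sup_insert, Finset.sup_insert, Finset.sup_singleton]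
    rw [h1]
    push_cast
    have h2 : (x 1 ≠ 0 ∧ v.ord (x 1) = v.ord (x 0) + v.ord X) ∨
        (x 1 = 0 ∧ v.ord (x 1) = 0 ∧ v.ord X = 0) := by
      by_cases h : x 1 = 0
      · right
        refine ⟨h, by rw [h, v.ord_zero], ?_⟩
        rw [hX, h, zero_div, v.ord_zero]
      · left
        refine ⟨h, ?_⟩
        have hXn : X ≠ 0 := by
          rw [hX]
          exact div_ne_zero h h0
        rw [hx1, v.ord_mul _ _ h0 hXn]
    have h3 : (x 2 ≠ 0 ∧ v.ord (x 2) = v.ord (x 0) + v.ord Y) ∨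
        (x 2 = 0 ∧ v.ord (x 2) = 0 ∧ v.ord Y = 0) := by
      by_cases h : x 2 = 0
      · right
        refine ⟨h, by rw [h, v.ord_zero], ?_⟩
        rw [hY, h, zero_div, v.ord_zero]
      · left
        refine ⟨h, ?_⟩
        have hYn : Y ≠ 0 := by
          rw [hY]
          exact div_ne_zero h h0
        rw [hx2, v.ord_mul _ _ h0 hYn]
    have h4 : v.ord (x 0) = 0 ∨ (x 1 ≠ 0 ∧ v.ord (x 1) = 0) ∨ (x 2 ≠ 0 ∧ v.ord (x 2) = 0) := by
      obtain ⟨j, hj⟩ := hj
      fin_cases j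
      · left
        have : x 0 = 1 := hj
        rw [this, plo_one]
      · right; left
        have : x 1 = 1 := hj
        rw [this]
        exact ⟨one_ne_zero, plo_one v⟩
      · right; right
        have : x 2 = 1 := hj
        rw [this]
        exact ⟨one_ne_zero, plo_one v⟩
    rcases h2 with ⟨a1, a2⟩ | ⟨a1, a2, a3⟩ <;> rcases h3 with ⟨b1, b2⟩ | ⟨b1, b2, b3⟩ <;>
      rcases h4 with c1 | ⟨c1, c2⟩ | ⟨c1, c2⟩ <;> first | exact absurd a1 c1 | exact absurd b1 c1 | omega
  rw [hpo]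
  ring

end Pool.Agent.H39.FOS
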